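import Pool.Agent.X225.Fct.Round

/-!
# Facets of `VR(Q_n; r)` have at least `c r ^ (2/3)` vertices

The barycenter of a facet with `s` vertices is at distance at most `r - r / s` from every vertex,
and can be rounded to a point of the cube with an error of order `√s` in all `s` distances.
-/

set_option autoImplicit false

namespace Pool.Agent.Results.MP_6132b6_co.TwoThirdsPower

open Finset

/-- Facets of `VR(Q_n; r)`: maximal nonempty subsets of the cube of diameter at most `r`. -/
def IsFacet (n r : ℕ) (S : Finset (Fin n → Bool)) : Prop :=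
  S.Nonempty ∧ (∀ x ∈ S, ∀ y ∈ S, hammingDist x y ≤ r) ∧
    ∀ T : Finset (Fin n → Bool), S ⊆ T → (∀ x ∈ T, ∀ y ∈ T, hammingDist x y ≤ r) → T = S

/-- `s(n; r)`: the minimum size of a facet of `VR(Q_n; r)`. -/
noncomputable def minFacet (n r : ℕ) : ℕ := sInf {k | ∃ S, IsFacet n r S ∧ S.card = k}

lemma exists_facet (n r : ℕ) : ∃ S, IsFacet n r S := by
  classical
  let C : Finset (Finset (Fin n → Bool)) := univ.filter fun S =>
    ∀ x ∈ S, ∀ y ∈ S, hammingDist x y ≤ r
  have hC : ∀ S, S ∈ C ↔ ∀ x ∈ S, ∀ y ∈ S, hammingDist x y ≤ r := by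
    intro S
    simp only [C, mem_filter, mem_univ, true_and]
  have h0 : ({fun _ => false} : Finset (Fin n → Bool)) ∈ C := by
    rw [hC]
    intro x hx y hy
    rw [mem_singleton] at hx hy
    rw [hx, hy, hammingDist_self]
    exact Nat.zero_le _
  obtain ⟨S, hS, hmax⟩ := exists_max_image C card ⟨_, h0⟩
  refine ⟨S, ?_, (hC S).1 hS, ?_⟩
  · have := hmax _ h0
    rw [card_singleton] at this
    exact card_pos.1 (by omega)
  · intro T hST hT
    exact (eq_of_subset_of_card_le hST (hmax T ((hC T).2 hT))).symm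

lemma facet_bound {n r : ℕ} (hr : 1 ≤ r) (hn : r ≤ n) {S : Finset (Fin n → Bool)}
    (h : IsFacet n r S) : ((r : ℝ) / 50000000000) ^ (2 / 3 : ℝ) ≤ S.card := by
  classical
  obtain ⟨hne, hd, hmax⟩ := h
  have h1 := X225.Fct.facet_large hr hn S hne hd (by
    intro x hx
    have h2 := hmax (insert x S) (subset_insert _ _) (by
      intro y hy z hz
      rw [mem_insert] at hy hz
      rcases hy with rfl | hy
      · rcases hz with rfl | hz
        · rw [hammingDist_self]
          exact Nat.zero_le _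
        · exact hx z hz
      · rcases hz with rfl | hz
        · rw [hammingDist_comm]
          exact hx y hy
        · exact hd y hy z hz)
    rw [← h2]
    exact mem_insert_self _ _)
  have hs0 : (0 : ℝ) ≤ S.card := Nat.cast_nonneg _
  have h2 : (r : ℝ) / 50000000000 ≤ (S.card : ℝ) ^ (3 / 2 : ℝ) := by
    have h3 : (S.card : ℝ) ^ (3 / 2 : ℝ) = S.card * Real.sqrt S.card := by
      rw [Real.sqrt_eq_rpow, show (3 / 2 : ℝ) = 1 + 1 / 2 by norm_num]
      have hpos : (0 : ℝ) < S.card := by exact_mod_cast card_pos.2 hne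
      rw [Real.rpow_add hpos, Real.rpow_one]
    rw [h3, div_le_iff₀ (by norm_num)]
    linarith
  calc ((r : ℝ) / 50000000000) ^ (2 / 3 : ℝ) ≤ ((S.card : ℝ) ^ (3 / 2 : ℝ)) ^ (2 / 3 : ℝ) :=
        Real.rpow_le_rpow (by positivity) h2 (by norm_num)
    _ = S.card := by
        rw [← Real.rpow_mul hs0]
        norm_num

/-- **Main result.** `s(n; r) ≥ (r / (5 * 10 ^ 10)) ^ (2 / 3)` for all `n ≥ r ≥ 1`. -/
theorem result (r n : ℕ) (hr : 1 ≤ r) (hn : r ≤ n) :
    ((r : ℝ) / 50000000000) ^ (2 / 3 : ℝ) ≤ minFacet n r := by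
  have hne : {k | ∃ S, IsFacet n r S ∧ S.card = k}.Nonempty := by
    obtain ⟨S, hS⟩ := exists_facet n r
    exact ⟨S.card, S, hS, rfl⟩
  obtain ⟨S, hS, hk⟩ := Nat.sInf_mem hne
  unfold minFacet
  rw [← hk]
  exact facet_bound hr hn hS

end Pool.Agent.Results.MP_6132b6_co.TwoThirdsPower
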